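import Mathlib
import Pool.Agent.Q112.SwanProof

/-!
# A Hopf order without the Swan property

`K = ℚ_2`, `R = ℤ_2`, `G` the dihedral group of order `8`, `z` its central involution and
`e = (1+z)/2`. The Hopf order `Λ = R[G] + R[G] e` has two lattices `M₀ ⊇ M₁` in the faithful
two-dimensional representation with `[M₀] - [M₁] ≠ 0` in `G_0^R(Λ)`, although their extensions
to `K` are isomorphic.
-/

namespace Pool.Agent.Results.MP_f004b1_al.SwanPropertyFails

open Pool.Agent.Q112.Swan

/-- There is a `ℤ_2`-Hopf order in `ℚ_2[D_4]` (`D_4` dihedral of order `8`) whose extension of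
scalars map `φ_Λ : G_0^R(Λ) → G_0(K[G])` is not injective. -/
theorem result : ∃ (L : Subalgebra ℤ_[2] (MonoidAlgebra ℚ_[2] (DihedralGroup 4)))
    (h : IsHopfOrder L), ¬ Function.Injective (phi h.toIsOrder) :=
  exists_not_injective

end Pool.Agent.Results.MP_f004b1_al.SwanPropertyFails
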